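import Pool.Agent.H80.JD.Basic

/-!
Module SW: swapping discordant pairs.
-/

set_option autoImplicit false

namespace Pool.Agent.H58.JD
open Finset Filter Topology Pool.Agent.H80.JD

/-- few integers `4 b` are near `c` -/
theorem sw_ints (u : ℕ) (c : ℤ) (K : ℝ) (hK : 0 ≤ K) :
    (((range (u + 1)).filter (fun b : ℕ => |(c : ℝ) - 4 * b| ≤ K)).card : ℝ) ≤ K / 2 + 1 := by
  classical
  have h1 : ((range (u + 1)).filter (fun b : ℕ => |(c : ℝ) - 4 * b| ≤ K)).card ≤
      (Finset.Icc ⌈((c : ℝ) - K) / 4⌉ ⌊((c : ℝ) + K) / 4⌋).card := by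
    refine card_le_card_of_injOn (fun b : ℕ => (b : ℤ)) ?_ ?_
    · intro b hb
      have h2 := (mem_filter.1 (mem_coe.1 hb)).2
      rw [abs_le] at h2
      refine mem_coe.2 (Finset.mem_Icc.2 ⟨?_, ?_⟩)
      · rw [Int.ceil_le]
        push_cast
        linarith [h2.2]
      · rw [Int.le_floor]
        push_cast
        linarith [h2.1]
    · intro b _ b' _ h
      exact Int.natCast_inj.1 h
  have h2 : ((Finset.Icc ⌈((c : ℝ) - K) / 4⌉ ⌊((c : ℝ) + K) / 4⌋).card : ℝ) ≤ K / 2 + 1 := by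
    rw [Int.card_Icc]
    have h3 : ((⌊((c : ℝ) + K) / 4⌋ + 1 - ⌈((c : ℝ) - K) / 4⌉ : ℤ) : ℝ) ≤ K / 2 + 1 := by
      push_cast
      have h4 := Int.floor_le (((c : ℝ) + K) / 4)
      have h5 := Int.le_ceil (((c : ℝ) - K) / 4)
      linarith
    rcases le_total 0 (⌊((c : ℝ) + K) / 4⌋ + 1 - ⌈((c : ℝ) - K) / 4⌉) with h | h
    · have h6 : (((⌊((c : ℝ) + K) / 4⌋ + 1 - ⌈((c : ℝ) - K) / 4⌉).toNat : ℕ) : ℝ) =
          ((⌊((c : ℝ) + K) / 4⌋ + 1 - ⌈((c : ℝ) - K) / 4⌉ : ℤ) : ℝ) := by
        have := Int.toNat_of_nonneg h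
        exact_mod_cast this
      rw [h6]; exact h3
    · rw [Int.toNat_of_nonpos h]
      push_cast
      linarith
  exact le_trans (by exact_mod_cast h1) h2

/-- the change of the inner product -/
theorem sw_ip {n M : ℕ} (a b : Fin M → Fin n) (D h : Fin n → Bool) (U A : Finset (Fin M))
    (ha : Function.Injective a) (hb : Function.Injective b)
    (hD : ∀ k, D (a k) = true ∧ D (b k) = false) (hU : ∀ k ∈ U, h (a k) ≠ h (b k))
    (hA : A ⊆ U) :
    ip (swp a b A h) D = ip h D - 4 * ∑ k ∈ A, (if h (a k) = false then (-1 : ℤ) else 1) := by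
  classical
  have hab : ∀ k l, a k ≠ b l := by
    intro k l hkl
    have h1 := (hD k).1
    rw [hkl, (hD l).2] at h1
    exact absurd h1 (by simp)
  have h1 : ∀ c : Fin n, sg (swp a b A h c) * sg (D c) = sg (h c) * sg (D c) -
      2 * (if c ∈ A.image a ∪ A.image b then sg (h c) * sg (D c) else 0) := by
    intro c
    have hiff : (∃ k ∈ A, c = a k ∨ c = b k) ↔ c ∈ A.image a ∪ A.image b := by
      simp only [mem_union, mem_image]
      constructor
      · rintro ⟨k, hk, rfl | rfl⟩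
        · exact Or.inl ⟨k, hk, rfl⟩
        · exact Or.inr ⟨k, hk, rfl⟩
      · rintro (⟨k, hk, rfl⟩ | ⟨k, hk, rfl⟩)
        · exact ⟨k, hk, Or.inl rfl⟩
        · exact ⟨k, hk, Or.inr rfl⟩
    unfold swp
    by_cases hc : ∃ k ∈ A, c = a k ∨ c = b k
    · rw [if_pos hc, if_pos (hiff.1 hc), sg_not]
      ring
    · rw [if_neg hc, if_neg (fun h' => hc (hiff.2 h'))]
      ring
  have hdisj : Disjoint (A.image a) (A.image b) := by
    rw [disjoint_left]
    intro c hc hc'
    obtain ⟨k, _, rfl⟩ := mem_image.1 hc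
    obtain ⟨l, _, hl⟩ := mem_image.1 hc'
    exact hab k l hl.symm
  unfold ip
  rw [sum_congr rfl (fun c _ => h1 c), sum_sub_distrib, ← mul_sum, ← sum_filter,
    filter_mem_eq_inter, univ_inter, sum_union hdisj, sum_image (fun x _ y _ hxy => ha hxy),
    sum_image (fun x _ y _ hxy => hb hxy), ← sum_add_distrib, mul_sum, mul_sum]
  congr 1
  refine sum_congr rfl fun k hk => ?_
  have h2 := hU k (hA hk)
  rw [(hD k).1, (hD k).2]
  cases h3 : h (a k) <;> cases h4 : h (b k) <;> simp_all [sg]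

theorem sw (hCB : T_CB) : T_SW := by
  intro n M a b D h U K ha hb hD hU hK hU1
  classical
  let N : Finset (Fin M) := U.filter (fun k => h (a k) = false)
  have hNU : N ⊆ U := filter_subset _ _
  obtain ⟨c, hc⟩ : ∃ c : ℤ, c = ip h D + 4 * N.card := ⟨_, rfl⟩
  -- the sum in terms of the symmetric difference
  have hsum : ∀ A : Finset (Fin M), A ⊆ U →
      ∑ k ∈ A, (if h (a k) = false then (-1 : ℤ) else 1) = (symmDiff A N).card - N.card := by
    intro A hA
    have e1 : ∑ k ∈ A, (if h (a k) = false then (-1 : ℤ) else 1) =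
        ((A \ N).card : ℤ) - ((A ∩ N).card : ℤ) := by
      rw [← sum_inter_add_sum_sdiff A N]
      have h2 : ∑ k ∈ A ∩ N, (if h (a k) = false then (-1 : ℤ) else 1) = -((A ∩ N).card : ℤ) := by
        rw [sum_congr rfl (g := fun _ => (-1 : ℤ))]
        · simp
        · intro k hk
          rw [if_pos]
          exact (mem_filter.1 (mem_inter.1 hk).2).2
      have h3 : ∑ k ∈ A \ N, (if h (a k) = false then (-1 : ℤ) else 1) = ((A \ N).card : ℤ) := by
        rw [sum_congr rfl (g := fun _ => (1 : ℤ))]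
        · simp
        · intro k hk
          rw [if_neg]
          intro h4
          have h5 := mem_sdiff.1 hk
          exact h5.2 (mem_filter.2 ⟨hA h5.1, h4⟩)
      rw [h2, h3]; ring
    have e2 : (symmDiff A N).card = (A \ N).card + (N \ A).card := by
      rw [symmDiff_def, sup_eq_union, card_union_of_disjoint]
      exact disjoint_sdiff_sdiff
    have e3 : (N \ A).card + (A ∩ N).card = N.card := by
      rw [inter_comm, card_sdiff_add_card_inter]
    rw [e1, e2]
    have e4 : ((N \ A).card : ℤ) + ((A ∩ N).card : ℤ) = (N.card : ℤ) := by exact_mod_cast e3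
    push_cast
    linarith
  have hip : ∀ A : Finset (Fin M), A ⊆ U →
      ((ip (swp a b A h) D : ℤ) : ℝ) = (c : ℝ) - 4 * ((symmDiff A N).card : ℝ) := by
    intro A hA
    rw [sw_ip a b D h U A ha hb hD hU hA, hsum A hA, hc]
    push_cast
    ring
  let I := (range (U.card + 1)).filter (fun b : ℕ => |(c : ℝ) - 4 * b| ≤ K)
  let S := I.biUnion (fun b => powersetCard b U)
  have hle : Nat.card {A : Finset (Fin M) // A ⊆ U ∧ |((ip (swp a b A h) D : ℤ) : ℝ)| ≤ K} ≤
      S.card := by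
    rw [← Nat.card_eq_finsetCard S]
    refine Nat.card_le_card_of_injective (fun A => (⟨symmDiff A.1 N, ?_⟩ : {B // B ∈ S})) ?_
    · have h1 := A.2.2
      rw [hip A.1 A.2.1] at h1
      have hsub : symmDiff A.1 N ⊆ U := by
        intro k hk
        rw [mem_symmDiff] at hk
        rcases hk with ⟨hk, _⟩ | ⟨hk, _⟩
        · exact A.2.1 hk
        · exact hNU hk
      refine mem_biUnion.2 ⟨(symmDiff A.1 N).card, ?_, mem_powersetCard.2 ⟨hsub, rfl⟩⟩
      refine mem_filter.2 ⟨mem_range.2 (Nat.lt_succ_of_le (card_le_card hsub)), h1⟩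
    · intro A B hAB
      have h1 := congrArg Subtype.val hAB
      simp only at h1
      exact Subtype.ext (symmDiff_left_injective N h1)
  have hupos : (0 : ℝ) < Real.sqrt U.card := Real.sqrt_pos.2 (by exact_mod_cast hU1)
  have hS : (S.card : ℝ) ≤ (I.card : ℝ) * (2 ^ U.card / Real.sqrt U.card) := by
    have h1 : S.card ≤ ∑ b ∈ I, (powersetCard b U).card := card_biUnion_le
    have h2 : ((∑ b ∈ I, (powersetCard b U).card : ℕ) : ℝ) ≤
        ∑ b ∈ I, (2 ^ U.card / Real.sqrt U.card : ℝ) := by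
      push_cast
      refine sum_le_sum fun b _ => ?_
      rw [card_powersetCard, le_div_iff₀ hupos]
      exact hCB U.card b
    rw [sum_const, nsmul_eq_mul] at h2
    exact le_trans (by exact_mod_cast h1) h2
  have hI := sw_ints U.card c K hK
  calc (Nat.card {A : Finset (Fin M) // A ⊆ U ∧ |((ip (swp a b A h) D : ℤ) : ℝ)| ≤ K} : ℝ)
      ≤ (S.card : ℝ) := by exact_mod_cast hle
    _ ≤ (I.card : ℝ) * (2 ^ U.card / Real.sqrt U.card) := hS
    _ ≤ (K / 2 + 1) * (2 ^ U.card / Real.sqrt U.card) :=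
        mul_le_mul_of_nonneg_right hI (by positivity)

end Pool.Agent.H58.JD
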