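import Pool.Agent.H80.JD.Basic

/-!
Module WC: number of vectors of a given weight.
-/

set_option autoImplicit false

namespace Pool.Agent.H58.JD
open Finset Filter Topology Pool.Agent.H80.JD

theorem wc : T_WC := by
  intro n T _ _ f M
  classical
  let maj : (Fin n → Bool) → T → Bool := fun D t => decide (cls f D t false < cls f D t true)
  let Dl : (Fin n → Bool) → Finset (Fin n) := fun D => univ.filter (fun c => D c ≠ maj D (f c))
  have hcard : ∀ D : Fin n → Bool, (Dl D).card = wt f D := by
    intro D
    rw [card_eq_sum_card_fiberwise (f := f) (t := univ) (fun x _ => mem_coe.2 (mem_univ _))]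
    unfold wt
    refine sum_congr rfl fun t _ => ?_
    by_cases h : cls f D t false < cls f D t true
    · rw [min_eq_right h.le]
      unfold cls
      congr 1
      ext c
      simp only [Dl, mem_filter, mem_univ, true_and]
      constructor
      · rintro ⟨h1, h2⟩
        refine ⟨h2, ?_⟩
        rw [h2] at h1
        have h3 : maj D t = true := decide_eq_true h
        rw [h3] at h1
        simpa using h1
      · rintro ⟨h1, h2⟩
        refine ⟨?_, h1⟩
        rw [h1, h2]
        have h3 : maj D t = true := decide_eq_true h
        rw [h3]
        simp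
    · rw [min_eq_left (not_lt.1 h)]
      unfold cls
      congr 1
      ext c
      simp only [Dl, mem_filter, mem_univ, true_and]
      constructor
      · rintro ⟨h1, h2⟩
        refine ⟨h2, ?_⟩
        rw [h2] at h1
        have h3 : maj D t = false := decide_eq_false h
        rw [h3] at h1
        simpa using h1
      · rintro ⟨h1, h2⟩
        refine ⟨?_, h1⟩
        rw [h1, h2]
        have h3 : maj D t = false := decide_eq_false h
        rw [h3]
        simp
  have hinj : ∀ D D' : Fin n → Bool, maj D = maj D' → Dl D = Dl D' → D = D' := by
    intro D D' h1 h2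
    funext c
    have h3 : c ∈ Dl D ↔ c ∈ Dl D' := by rw [h2]
    simp only [Dl, mem_filter, mem_univ, true_and] at h3
    rw [← h1] at h3
    cases hD : D c <;> cases hD' : D' c <;> cases hm : maj D (f c) <;>
      simp_all
  have key : (univ.filter (fun D : Fin n → Bool => wt f D = M)).card ≤
      ((univ : Finset (T → Bool)) ×ˢ (powersetCard M (univ : Finset (Fin n)))).card := by
    refine card_le_card_of_injOn (fun D => (maj D, Dl D)) ?_ ?_
    · intro D hD
      have hD' := (mem_filter.1 (mem_coe.1 hD)).2
      refine mem_coe.2 (mem_product.2 ⟨mem_univ _, mem_powersetCard.2 ⟨subset_univ _, ?_⟩⟩)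
      rw [hcard, hD']
    · intro D _ D' _ h
      exact hinj D D' (congrArg Prod.fst h) (congrArg Prod.snd h)
  refine key.trans (le_of_eq ?_)
  rw [card_product, card_powersetCard, card_univ, Fintype.card_fun, Fintype.card_bool, card_univ,
    Fintype.card_fin]

end Pool.Agent.H58.JD
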