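import Pool.Agent.H80.JD.Basic

/-!
Module XU: few rows have few discordant pairs.
-/

set_option autoImplicit false

namespace Pool.Agent.H58.JD
open Finset Filter Topology Pool.Agent.H80.JD

/-- few subsets are small -/
theorem xu_subsets (M : ℕ) :
    ((univ.filter (fun U : Finset (Fin M) => 4 * U.card < M)).card : ℝ) ≤ (9 / 5) ^ M := by
  have h1 : ∑ U ∈ (univ : Finset (Fin M)).powerset, ((5 / 7 : ℝ) ^ 4) ^ U.card *
      (1 : ℝ) ^ ((univ : Finset (Fin M)).card - U.card) = ((5 / 7 : ℝ) ^ 4 + 1) ^ M := by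
    rw [sum_pow_mul_eq_add_pow, card_univ, Fintype.card_fin]
  have h2 : ((univ.filter (fun U : Finset (Fin M) => 4 * U.card < M)).card : ℝ) * (5 / 7) ^ M ≤
      ((5 / 7 : ℝ) ^ 4 + 1) ^ M := by
    rw [← h1, ← nsmul_eq_mul, ← sum_const]
    refine le_trans (sum_le_sum (f := fun _ => (5 / 7 : ℝ) ^ M)
      (g := fun U : Finset (Fin M) => ((5 / 7 : ℝ) ^ 4) ^ U.card *
        (1 : ℝ) ^ ((univ : Finset (Fin M)).card - U.card)) ?_)
      (sum_le_sum_of_subset_of_nonneg ?_ ?_)
    · intro U hU
      have hU' := (mem_filter.1 hU).2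
      simp only [one_pow, mul_one, ← pow_mul]
      exact pow_le_pow_of_le_one (by norm_num) (by norm_num) hU'.le
    · intro U _
      rw [mem_powerset]; exact subset_univ _
    · intro U _ _
      positivity
  have h3 : ((5 / 7 : ℝ) ^ 4 + 1) ^ M ≤ (9 / 5) ^ M * (5 / 7) ^ M := by
    rw [← mul_pow]
    exact pow_le_pow_left₀ (by norm_num) (by norm_num) M
  exact le_of_mul_le_mul_right (h2.trans h3) (by positivity)

theorem xu : T_XU := by
  intro n M a b ha hb hab
  classical
  let P : (Fin n → Bool) → Finset (Fin M) := fun h => univ.filter (fun k => h (a k) ≠ h (b k))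
  let φ : Finset (Fin M) → (Fin n → Bool) → (Fin n → Bool) :=
    fun U h c => if ∃ k ∈ U, c = b k then !(h c) else h c
  have hφa : ∀ U h k, φ U h (a k) = h (a k) := by
    intro U h k
    simp only [φ]
    rw [if_neg]
    rintro ⟨l, _, hl⟩
    exact hab k l hl
  have hφb : ∀ U h k, φ U h (b k) = if k ∈ U then !(h (b k)) else h (b k) := by
    intro U h k
    simp only [φ]
    by_cases hk : k ∈ U
    · rw [if_pos ⟨k, hk, rfl⟩, if_pos hk]
    · rw [if_neg hk, if_neg]
      rintro ⟨l, hl, hl'⟩
      rw [hb hl'] at hk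
      exact hk hl
  have hφφ : ∀ U h, φ U (φ U h) = h := by
    intro U h
    funext c
    simp only [φ]
    by_cases hc : ∃ k ∈ U, c = b k
    · rw [if_pos hc, if_pos hc, Bool.not_not]
    · rw [if_neg hc, if_neg hc]
  have hP : ∀ U h k, k ∈ P (φ U h) ↔ (k ∈ P h ↔ k ∉ U) := by
    intro U h k
    simp only [P, mem_filter, mem_univ, true_and]
    rw [hφa, hφb]
    by_cases hk : k ∈ U
    · rw [if_pos hk]
      simp only [hk, not_true_eq_false, iff_false, not_not]
      cases h (a k) <;> cases h (b k) <;> simp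
    · rw [if_neg hk]
      simp [hk]
  have hfib : ∀ U : Finset (Fin M), (univ.filter (fun h => P h = U)).card =
      (univ.filter (fun h => P h = ∅)).card := by
    intro U
    refine card_bij' (fun h _ => φ U h) (fun h _ => φ U h) ?_ ?_ ?_ ?_
    · intro h hh
      rw [mem_filter] at hh ⊢
      refine ⟨mem_univ _, ?_⟩
      ext k
      rw [hP, hh.2]
      simp
    · intro h hh
      rw [mem_filter] at hh ⊢
      refine ⟨mem_univ _, ?_⟩
      ext k
      rw [hP, hh.2]
      simp
    · intro h _
      exact hφφ U h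
    · intro h _
      exact hφφ U h
  have htot : 2 ^ M * (univ.filter (fun h => P h = ∅)).card = 2 ^ n := by
    have h1 : (univ : Finset (Fin n → Bool)).card = 2 ^ n := by
      rw [card_univ, Fintype.card_fun, Fintype.card_bool, Fintype.card_fin]
    have h2 : (univ : Finset (Fin n → Bool)).card =
        ∑ U : Finset (Fin M), (univ.filter (fun h => P h = U)).card :=
      card_eq_sum_card_fiberwise (f := P) (t := univ) (fun x _ => mem_coe.2 (mem_univ _))
    rw [← h1, h2, sum_congr rfl (fun U _ => hfib U), sum_const, card_univ, Fintype.card_finset,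
      Fintype.card_fin, smul_eq_mul]
  have hcount : (univ.filter (fun h : Fin n → Bool => 4 * (P h).card < M)).card =
      (univ.filter (fun U : Finset (Fin M) => 4 * U.card < M)).card *
        (univ.filter (fun h => P h = ∅)).card := by
    rw [card_eq_sum_card_fiberwise (f := P)
      (t := univ.filter (fun U : Finset (Fin M) => 4 * U.card < M)), ← smul_eq_mul, ← sum_const]
    · refine sum_congr rfl fun U hU => ?_
      rw [← hfib U]
      congr 1
      ext h
      simp only [mem_filter, mem_univ, true_and]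
      constructor
      · rintro ⟨_, h2⟩; exact h2
      · intro h2
        exact ⟨by rw [h2]; exact (mem_filter.1 hU).2, h2⟩
    · intro h hh
      have := (mem_filter.1 (mem_coe.1 hh)).2
      exact mem_coe.2 (mem_filter.2 ⟨mem_univ _, this⟩)
  change ((univ.filter (fun h : Fin n → Bool => 4 * (P h).card < M)).card : ℝ) ≤ _
  rw [hcount]
  have htot' : (2 : ℝ) ^ M * ((univ.filter (fun h => P h = ∅)).card : ℝ) = 2 ^ n := by
    exact_mod_cast htot
  have hs := xu_subsets M
  push_cast
  rw [← htot']
  have e : (2 : ℝ) ^ M * ((univ.filter (fun h => P h = ∅)).card : ℝ) * (9 / 10) ^ M =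
      (9 / 5) ^ M * ((univ.filter (fun h => P h = ∅)).card : ℝ) := by
    rw [mul_right_comm, ← mul_pow]
    norm_num
  rw [e]
  exact mul_le_mul_of_nonneg_right hs (Nat.cast_nonneg _)

end Pool.Agent.H58.JD
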